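import Pool.Agent.N311.SH.Stm
import Pool.Agent.Helper202.Riemann

/-! The Riemann mapping theorem for the image of the disc. -/

set_option autoImplicit false
open Set Metric Filter Topology MeasureTheory
open Pool.Agent.N311.SH

namespace Pool.Agent.N75.SH

/-- RM -/
theorem rm : S_RM := by
  intro f hf0
  have hV : IsOpen (f '' ball (0 : ℂ) 1) := f.isOpenMap _ isOpen_ball
  have h0 : (0 : ℂ) ∈ f '' ball (0 : ℂ) 1 := ⟨0, mem_ball_self one_pos, hf0⟩
  have hne : f '' ball (0 : ℂ) 1 ≠ univ := by
    intro h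
    have hb : Bornology.IsBounded (f '' closedBall (0 : ℂ) 1) :=
      ((isCompact_closedBall (0 : ℂ) 1).image f.continuous).isBounded
    have hb2 : Bornology.IsBounded (univ : Set ℂ) := by
      rw [← h]
      exact hb.subset (image_mono ball_subset_closedBall)
    exact NormedSpace.unbounded_univ ℝ ℂ hb2
  have hsc : IsSimplyConnected (f '' ball (0 : ℂ) 1) := by
    haveI : ContractibleSpace (ball (0 : ℂ) 1) :=
      (convex_ball (0 : ℂ) 1).contractibleSpace ⟨0, mem_ball_self one_pos⟩
    have h1 : IsSimplyConnected (ball (0 : ℂ) 1) := by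
      unfold IsSimplyConnected
      infer_instance
    exact (Homeomorph.isSimplyConnected_image f).mpr h1
  obtain ⟨g, φ, h1, h2, h3, h4, h5, h6, h7, h8⟩ :=
    Pool.Agent.Helper202.Riemann.riemann_inv hV hsc hne h0
  exact ⟨g, φ, ⟨h1, h5, h2.mapsTo, h6, h8, h7⟩, h4, h3 0 (mem_ball_self one_pos)⟩

end Pool.Agent.N75.SH
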